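import Pool.Agent.Y155.RK.Par

/-!
# Solving linear equations with coefficients depending on a parameter
-/

set_option autoImplicit false

namespace Pool.Agent.Y155.RK

open Pool.Agent.Helper133.BT Pool.Agent.Helper133.BU Pool.Agent.Y269.RK Module Set Topology
open scoped NNReal ENNReal

/-- the part over an open set on which a minor is invertible -/
theorem elim_loc {d : ℕ} {E Z F W₁ W₂ : Type} [NormedAddCommGroup E] [NormedSpace ℝ E]
    [NormedAddCommGroup Z] [NormedSpace ℂ Z] [FiniteDimensional ℂ Z]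
    [NormedAddCommGroup F] [NormedSpace ℂ F]
    [NormedAddCommGroup W₁] [NormedSpace ℂ W₁]
    [NormedAddCommGroup W₂] [NormedSpace ℂ W₂] [FiniteDimensional ℂ W₂]
    (S : Set E) (A : E → (Z →L[ℂ] F)) (v : E → F) (π : F →L[ℂ] W₁) (π' : Z →L[ℂ] W₂)
    (O : Set E) (hO : ∀ x ∈ O, ((π.comp (A x)).prod π').IsInvertible)
    (hS : Par d S) (hA : ContDiff ℝ 1 A) (hv : ContDiff ℝ 1 v) :
    Par (d + 2 * finrank ℂ W₂) {p : E × Z | p.1 ∈ S ∩ O ∧ A p.1 p.2 = v p.1} := by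
  have : CompleteSpace Z := FiniteDimensional.complete ℂ Z
  have hfd : FiniteDimensional ℝ W₂ := FiniteDimensional.complexToReal W₂
  set G : E → (Z →L[ℂ] W₁ × W₂) := fun x => (π.comp (A x)).prod π' with hG
  have hGd : ContDiff ℝ 1 G := by
    have h1 : ContDiff ℝ 1 (fun x => π.comp (A x)) :=
      ((ContinuousLinearMap.compL ℂ Z F W₁ π).restrictScalars ℝ).contDiff.comp hA
    have h2 : ContDiff ℝ 1 (fun x => (π.comp (A x), π')) := h1.prodMk contDiff_const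
    exact (ContinuousLinearMap.prodₗᵢ (𝕜 := ℂ) (E := Z) (F := W₁) (G := W₂) ℝ).contDiff.comp h2
  let g : E × W₂ → E × Z := fun q => (q.1, (G q.1).inverse (π (v q.1), q.2))
  have hg : LocallyLipschitzOn ((S ∩ O) ×ˢ (univ : Set W₂)) g := by
    rintro ⟨x, u⟩ ⟨⟨hxS, hxO⟩, -⟩
    have h1 : ContDiffAt ℝ 1 g (x, u) := by
      have h2 : ContDiffAt ℝ 1 (fun T : Z →L[ℂ] W₁ × W₂ => T.inverse) (G x) :=
        ((hO x hxO).contDiffAt_map_inverse (n := 1)).restrict_scalars ℝ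
      have h2' : ContDiffAt ℝ 1 (fun q : E × W₂ => G q.1) (x, u) :=
        (hGd.comp contDiff_fst).contDiffAt
      have h3 : ContDiffAt ℝ 1 (fun q : E × W₂ => (G q.1).inverse) (x, u) :=
        ContDiffAt.comp (x, u) (g := fun T : Z →L[ℂ] W₁ × W₂ => T.inverse) h2 h2'
      have h4 : ContDiff ℝ 1 (fun p : (W₁ × W₂ →L[ℂ] Z) × (W₁ × W₂) => p.1 p.2) :=
        (isBoundedBilinearMap_apply (𝕜 := ℂ) (E := W₁ × W₂) (F := Z)).contDiff.restrict_scalars ℝ
      have h5 : ContDiff ℝ 1 (fun q : E × W₂ => (π (v q.1), q.2)) :=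
        (((π.restrictScalars ℝ).contDiff.comp hv).comp contDiff_fst).prodMk contDiff_snd
      exact contDiffAt_fst.prodMk (h4.contDiffAt.comp (x, u) (h3.prodMk h5.contDiffAt))
    obtain ⟨K, t, ht, hK⟩ := h1.exists_lipschitzOnWith
    exact ⟨K, t, mem_nhdsWithin_of_mem_nhds ht, hK⟩
  have h1 : Par (d + 2 * finrank ℂ W₂) ((S ∩ O) ×ˢ (univ : Set W₂)) := by
    rw [← finrank_real_of_complex W₂]
    exact par_prod d E W₂ (S ∩ O) (par_mono d d E _ _ le_rfl inter_subset_left hS)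
  refine par_mono _ _ _ _ _ le_rfl ?_ (par_image _ _ _ _ g h1 hg)
  rintro ⟨x, z⟩ ⟨hx, hxz⟩
  refine ⟨(x, π' z), ⟨hx, mem_univ _⟩, ?_⟩
  obtain ⟨e, he⟩ := hO x hx.2
  have h2 : G x z = (π (v x), π' z) := by
    simp only [hG, ContinuousLinearMap.prod_apply, ContinuousLinearMap.comp_apply]
    rw [show A x z = v x from hxz]
  simp only [g, Prod.mk.injEq, true_and]
  rw [← h2, ← show (e : Z →L[ℂ] W₁ × W₂) = G x from he, ContinuousLinearMap.inverse_equiv]
  simp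

/-- an invertible minor -/
theorem exists_minor {Z F : Type} [NormedAddCommGroup Z] [NormedSpace ℂ Z]
    [FiniteDimensional ℂ Z] [NormedAddCommGroup F] [NormedSpace ℂ F] [FiniteDimensional ℂ F]
    (A : Z →L[ℂ] F) (ρ : ℕ) (h : ρ ≤ finrank ℂ (LinearMap.range (A : Z →ₗ[ℂ] F))) :
    ∃ (π : F →L[ℂ] (Fin ρ → ℂ)) (π' : Z →L[ℂ] (Fin (finrank ℂ Z - ρ) → ℂ)),
      ((π.comp A).prod π').IsInvertible := by
  have hrZ : ρ ≤ finrank ℂ Z := h.trans (LinearMap.finrank_range_le _)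
  let e : LinearMap.range (A : Z →ₗ[ℂ] F) ≃ₗ[ℂ]
      (Fin (finrank ℂ (LinearMap.range (A : Z →ₗ[ℂ] F))) → ℂ) :=
    LinearEquiv.ofFinrankEq _ _ (by rw [Module.finrank_fin_fun])
  let p : (Fin (finrank ℂ (LinearMap.range (A : Z →ₗ[ℂ] F))) → ℂ) →ₗ[ℂ] (Fin ρ → ℂ) :=
    LinearMap.funLeft ℂ ℂ (Fin.castLE h)
  have hp : Function.Surjective p :=
    LinearMap.funLeft_surjective_of_injective ℂ ℂ _ (Fin.castLE_injective h)
  obtain ⟨π₀, hπ₀⟩ := LinearMap.exists_extend (p.comp e.toLinearMap)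
  set B : Z →ₗ[ℂ] (Fin ρ → ℂ) := π₀.comp (A : Z →ₗ[ℂ] F) with hB
  have hBs : Function.Surjective B := by
    intro y
    obtain ⟨y', rfl⟩ := hp y
    obtain ⟨⟨w, z, rfl⟩, rfl⟩ := e.surjective y'
    refine ⟨z, ?_⟩
    have := congrArg (fun g => g ⟨(A : Z →ₗ[ℂ] F) z, LinearMap.mem_range_self _ z⟩) hπ₀
    exact this
  have hker : finrank ℂ (LinearMap.ker B) = finrank ℂ Z - ρ := by
    have h1 := LinearMap.finrank_range_add_finrank_ker B
    rw [LinearMap.range_eq_top.2 hBs, finrank_top, Module.finrank_fin_fun] at h1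
    omega
  let e' : LinearMap.ker B ≃ₗ[ℂ] (Fin (finrank ℂ Z - ρ) → ℂ) :=
    LinearEquiv.ofFinrankEq _ _ (by rw [hker, Module.finrank_fin_fun])
  obtain ⟨π₁, hπ₁⟩ := LinearMap.exists_extend e'.toLinearMap
  have hinj : Function.Injective (B.prod π₁) := by
    rw [← LinearMap.ker_eq_bot, LinearMap.ker_eq_bot']
    intro z hz
    have h1 : B z = 0 := congrArg Prod.fst hz
    have h2 : π₁ z = 0 := congrArg Prod.snd hz
    have h3 : e' ⟨z, h1⟩ = 0 := by
      have := congrArg (fun g => g ⟨z, h1⟩) hπ₁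
      rw [← h2]
      exact this.symm
    have h4 := (LinearEquiv.map_eq_zero_iff e').1 h3
    exact congrArg Subtype.val h4
  have hdim : finrank ℂ Z = finrank ℂ ((Fin ρ → ℂ) × (Fin (finrank ℂ Z - ρ) → ℂ)) := by
    rw [Module.finrank_prod, Module.finrank_fin_fun, Module.finrank_fin_fun]
    omega
  let M := (LinearEquiv.ofInjectiveOfFinrankEq (B.prod π₁) hinj hdim).toContinuousLinearEquiv
  refine ⟨LinearMap.toContinuousLinearMap π₀, LinearMap.toContinuousLinearMap π₁, M, ?_⟩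
  ext z
  · rfl
  · rfl

theorem elim : S_ELIM := by
  intro d ρ E Z F _ _ _ _ _ _ _ _ _ S A v hS hA hv hrk
  have hcZ : CompleteSpace Z := FiniteDimensional.complete ℂ Z
  choose! π π' hπ using fun x hx => exists_minor (A x) ρ (hrk x hx)
  let O : E → Set E := fun x₀ => {x | (((π x₀).comp (A x)).prod (π' x₀)).IsInvertible}
  have hO : ∀ x₀ ∈ S, O x₀ ∈ 𝓝[S] x₀ := by
    intro x₀ hx₀
    apply mem_nhdsWithin_of_mem_nhds
    have hcont : Continuous (fun x => ((π x₀).comp (A x)).prod (π' x₀)) := by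
      have h1 : Continuous (fun x => (π x₀).comp (A x)) :=
        (ContinuousLinearMap.compL ℂ Z F _ (π x₀)).continuous.comp hA.continuous
      have h2 : Continuous (fun x => ((π x₀).comp (A x), π' x₀)) := h1.prodMk continuous_const
      exact (ContinuousLinearMap.prodₗᵢ (𝕜 := ℂ) (E := Z) (F := Fin ρ → ℂ)
        (G := Fin (finrank ℂ Z - ρ) → ℂ) ℂ).continuous.comp h2
    have h2 := (ContinuousLinearEquiv.isOpen (𝕜 := ℂ) (E := Z)
      (F := (Fin ρ → ℂ) × (Fin (finrank ℂ Z - ρ) → ℂ))).preimage hcont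
    exact h2.mem_nhds (hπ x₀ hx₀)
  obtain ⟨t, htS, htc, hcov⟩ := TopologicalSpace.countable_cover_nhdsWithin hO
  have hct : Countable t := htc.to_subtype
  have h3 : Par (d + 2 * (finrank ℂ Z - ρ))
      (⋃ x₀ : t, {p : E × Z | p.1 ∈ S ∩ O x₀ ∧ A p.1 p.2 = v p.1}) := by
    refine par_iUnion _ fun x₀ => ?_
    have h4 := elim_loc S A v (π x₀) (π' x₀) (O x₀) (fun x hx => hx) hS hA hv
    rwa [Module.finrank_fin_fun] at h4
  refine par_mono _ _ _ _ _ le_rfl ?_ h3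
  rintro p ⟨hp1, hp2⟩
  obtain ⟨x₀, hx₀, hx⟩ := mem_iUnion₂.1 (hcov hp1)
  exact mem_iUnion.2 ⟨⟨x₀, hx₀⟩, ⟨hp1, hx⟩, hp2⟩

end Pool.Agent.Y155.RK
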