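import Pool.Agent.Y269.RK.Stm

/-!
# Positive parts of Hermitian matrices
-/

set_option autoImplicit false
set_option linter.unusedSectionVars false

namespace Pool.Agent.Y155.RK

open Pool.Agent.Y269.RK Module Matrix
open scoped ComplexOrder

section
variable {I : Type} [Fintype I] [DecidableEq I]

open scoped MatrixOrder in
theorem psd_eq {A : Matrix I I ℂ} (hA : A.PosSemidef) : ∃ C : Matrix I I ℂ, A = Cᴴ * C := by
  obtain ⟨B, hB⟩ := CStarAlgebra.nonneg_iff_eq_star_mul_self.mp hA.nonneg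
  exact ⟨B, hB⟩

/-- a positive decomposition -/
def Dec (X A B : Matrix I I ℂ) : Prop :=
  A.PosSemidef ∧ B.PosSemidef ∧ A * B = 0 ∧ A - B = X

theorem exists_diag (X : Matrix I I ℂ) (hX : X.IsHermitian) : ∃ (U : Matrix I I ℂ) (l : I → ℝ),
    Uᴴ * U = 1 ∧ X = U * diagonal (fun i => (l i : ℂ)) * Uᴴ := by
  refine ⟨(hX.eigenvectorUnitary : Matrix I I ℂ), hX.eigenvalues,
    Unitary.coe_star_mul_self hX.eigenvectorUnitary, ?_⟩
  conv_lhs => rw [hX.spectral_theorem]
  rfl

theorem exists_dec (X : Matrix I I ℂ) (hX : X.IsHermitian) : ∃ A B : Matrix I I ℂ, Dec X A B := by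
  obtain ⟨U, l, hUU, hXU⟩ := exists_diag X hX
  have hD : ∀ f : I → ℝ, (∀ x, 0 ≤ f x) →
      (U * diagonal (fun i => (f i : ℂ)) * Uᴴ).PosSemidef := by
    intro f hf
    refine PosSemidef.mul_mul_conjTranspose_same ?_ U
    refine PosSemidef.diagonal fun i => ?_
    exact Complex.zero_le_real.2 (hf i)
  refine ⟨_, _, hD (fun i => max (l i) 0) fun x => le_max_right _ _,
    hD (fun i => max (-(l i)) 0) fun x => le_max_right _ _, ?_, ?_⟩
  · have h1 : diagonal (fun i => ((max (l i) 0 : ℝ) : ℂ)) *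
        diagonal (fun i => ((max (-(l i)) 0 : ℝ) : ℂ)) = 0 := by
      rw [diagonal_mul_diagonal, ← diagonal_zero]
      congr 1
      funext i
      rcases le_total 0 (l i) with h | h
      · rw [max_eq_right (neg_nonpos.2 h)]; simp
      · rw [max_eq_right h]; simp
    have h2 : ∀ D₁ D₂ : Matrix I I ℂ, U * D₁ * Uᴴ * (U * D₂ * Uᴴ) = U * (D₁ * D₂) * Uᴴ := by
      intro D₁ D₂
      calc U * D₁ * Uᴴ * (U * D₂ * Uᴴ) = U * D₁ * (Uᴴ * U) * D₂ * Uᴴ := by
            simp only [Matrix.mul_assoc]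
        _ = U * (D₁ * D₂) * Uᴴ := by
            rw [hUU]; simp only [Matrix.mul_assoc, Matrix.one_mul]
    rw [h2, h1, Matrix.mul_zero, Matrix.zero_mul]
  · have h1 : diagonal (fun i => ((max (l i) 0 : ℝ) : ℂ)) -
        diagonal (fun i => ((max (-(l i)) 0 : ℝ) : ℂ)) = diagonal (fun i => (l i : ℂ)) := by
      rw [diagonal_sub]
      congr 1
      funext i
      rcases le_total 0 (l i) with h | h
      · rw [max_eq_left h, max_eq_right (neg_nonpos.2 h)]; simp
      · rw [max_eq_right h, max_eq_left (neg_nonneg.2 h)]; simp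
    rw [← Matrix.sub_mul, ← Matrix.mul_sub, h1, ← hXU]

/-- the square of the Hilbert-Schmidt norm -/
noncomputable def hs (A : Matrix I I ℂ) : ℝ := ∑ i, ∑ j, ‖A i j‖ ^ 2

theorem hs_nonneg (A : Matrix I I ℂ) : 0 ≤ hs A := by unfold hs; positivity

theorem hs_eq_zero {A : Matrix I I ℂ} (h : hs A ≤ 0) : A = 0 := by
  have h0 : hs A = 0 := le_antisymm h (hs_nonneg A)
  unfold hs at h0
  rw [Finset.sum_eq_zero_iff_of_nonneg fun i _ => by positivity] at h0
  ext i j
  have h1 := h0 i (Finset.mem_univ _)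
  rw [Finset.sum_eq_zero_iff_of_nonneg fun i _ => by positivity] at h1
  have h2 := h1 j (Finset.mem_univ _)
  simpa using h2

theorem hs_eq {A : Matrix I I ℂ} (hA : A.IsHermitian) : hs A = (A * A).trace.re := by
  rw [hs, trace, Complex.re_sum]
  refine Finset.sum_congr rfl fun i _ => ?_
  rw [diag_apply, Matrix.mul_apply, Complex.re_sum]
  refine Finset.sum_congr rfl fun j _ => ?_
  rw [← hA.apply j i, Complex.star_def, Complex.mul_conj, Complex.normSq_eq_norm_sq]
  exact (Complex.ofReal_re _).symm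

theorem trace_mul_nonneg {A B : Matrix I I ℂ} (hA : A.PosSemidef) (hB : B.PosSemidef) :
    0 ≤ (A * B).trace.re := by
  obtain ⟨C, rfl⟩ := psd_eq hA
  rw [Matrix.mul_assoc, trace_mul_comm]
  have h := (hB.mul_mul_conjTranspose_same C).trace_nonneg
  exact (Complex.le_def.1 h).1

theorem Dec.comm {X A B : Matrix I I ℂ} (h : Dec X A B) : B * A = 0 := by
  have h1 := congrArg conjTranspose h.2.2.1
  rw [conjTranspose_mul, conjTranspose_zero, h.1.isHermitian.eq, h.2.1.isHermitian.eq] at h1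
  exact h1

theorem dec_le {X Y A B A' B' : Matrix I I ℂ} (h : Dec X A B) (h' : Dec Y A' B') :
    hs (A - A') ≤ hs (X - Y) := by
  have hP : (A - A').IsHermitian := h.1.isHermitian.sub h'.1.isHermitian
  have hQ : (B - B').IsHermitian := h.2.1.isHermitian.sub h'.2.1.isHermitian
  have e1 : X - Y = (A - A') - (B - B') := by
    rw [← h.2.2.2, ← h'.2.2.2]; abel
  rw [e1, hs_eq hP, hs_eq (hP.sub hQ)]
  have e2' : ∀ P Q : Matrix I I ℂ, ((P - Q) * (P - Q)).trace =
      (P * P).trace + (Q * Q).trace - 2 * (P * Q).trace := by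
    intro P Q
    rw [Matrix.sub_mul, Matrix.mul_sub, Matrix.mul_sub, trace_sub, trace_sub, trace_sub,
      trace_mul_comm Q P]
    ring
  have e2 := e2' (A - A') (B - B')
  have e3 : ((A - A') * (B - B')).trace = -((A * B').trace + (A' * B).trace) := by
    rw [Matrix.sub_mul, Matrix.mul_sub, Matrix.mul_sub, h.2.2.1, h'.2.2.1]
    simp only [trace_sub, trace_zero]
    ring
  have e4 := hs_nonneg (B - B')
  rw [hs_eq hQ] at e4
  have e5 := trace_mul_nonneg h.1 h'.2.1
  have e6 := trace_mul_nonneg h'.1 h.2.1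
  rw [e2, e3]
  simp only [Complex.sub_re, Complex.add_re, Complex.neg_re, Complex.mul_re, Complex.re_ofNat,
    Complex.im_ofNat, zero_mul, sub_zero]
  linarith

theorem dec_unique {X A B A' B' : Matrix I I ℂ} (h : Dec X A B) (h' : Dec X A' B') : A = A' := by
  have h1 := dec_le h h'
  rw [sub_self] at h1
  have h2 : hs (0 : Matrix I I ℂ) = 0 := by simp [hs]
  rw [h2] at h1
  exact sub_eq_zero.1 (hs_eq_zero h1)

theorem Dec.herm {X A B : Matrix I I ℂ} (h : Dec X A B) (v : I → ℂ) :
    Y269.RK.herm X v v = Y269.RK.herm A v v - Y269.RK.herm B v v := by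
  rw [Y269.RK.herm, Y269.RK.herm, Y269.RK.herm, ← h.2.2.2, Matrix.sub_mulVec, dotProduct_sub]

theorem herm_nonneg {A : Matrix I I ℂ} (hA : A.PosSemidef) (v : I → ℂ) :
    0 ≤ Y269.RK.herm A v v := hA.dotProduct_mulVec_nonneg v

theorem herm_pos {A : Matrix I I ℂ} (hA : A.PosSemidef) {v : I → ℂ} (hv : A.mulVec v ≠ 0) :
    0 < (Y269.RK.herm A v v).re := by
  have h1 := Complex.le_def.1 (herm_nonneg hA v)
  rcases h1.1.lt_or_eq with h2 | h2
  · exact h2
  · exfalso
    apply hv
    rw [← hA.dotProduct_mulVec_zero_iff]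
    exact Complex.ext h2.symm h1.2.symm

open Classical in
/-- the positive part -/
noncomputable def posP (X : Matrix I I ℂ) : Matrix I I ℂ :=
  if h : X.IsHermitian then Classical.choose (exists_dec X h) else 0

theorem dec_posP {X : Matrix I I ℂ} (hX : X.IsHermitian) : ∃ B, Dec X (posP X) B := by
  have h1 : posP X = Classical.choose (exists_dec X hX) := dif_pos hX
  rw [h1]
  exact Classical.choose_spec (exists_dec X hX)

theorem posP_eq {X A B : Matrix I I ℂ} (h : Dec X A B) : posP X = A := by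
  have hX : X.IsHermitian := by
    rw [← h.2.2.2]; exact h.1.isHermitian.sub h.2.1.isHermitian
  obtain ⟨B', hB'⟩ := dec_posP hX
  exact dec_unique hB' h

theorem sign_eq (X : Matrix I I ℂ) (s : I → ℝ) :
    (Matrix.of fun i j => (s i : ℂ) * s j * X i j) =
      diagonal (fun i => (s i : ℂ)) * X * diagonal (fun i => (s i : ℂ)) := by
  ext i j
  rw [Matrix.mul_diagonal, Matrix.diagonal_mul, Matrix.of_apply]
  ring

theorem Dec.sign {X A B : Matrix I I ℂ} (h : Dec X A B) (s : I → ℝ)
    (hs : ∀ i, s i = 1 ∨ s i = -1) :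
    Dec (diagonal (fun i => (s i : ℂ)) * X * diagonal (fun i => (s i : ℂ)))
      (diagonal (fun i => (s i : ℂ)) * A * diagonal (fun i => (s i : ℂ)))
      (diagonal (fun i => (s i : ℂ)) * B * diagonal (fun i => (s i : ℂ))) := by
  set D : Matrix I I ℂ := diagonal (fun i => (s i : ℂ)) with hD
  have hDH : Dᴴ = D := by
    rw [hD, diagonal_conjTranspose]
    congr 1
    funext i
    simp
  have hDD : D * D = 1 := by
    rw [hD, diagonal_mul_diagonal, ← diagonal_one]
    congr 1
    funext i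
    rcases hs i with h1 | h1 <;> simp [h1]
  have hpsd : ∀ {M : Matrix I I ℂ}, M.PosSemidef → (D * M * D).PosSemidef := by
    intro M hM
    have := hM.mul_mul_conjTranspose_same D
    rwa [hDH] at this
  refine ⟨hpsd h.1, hpsd h.2.1, ?_, ?_⟩
  · calc D * A * D * (D * B * D) = D * A * (D * D) * B * D := by simp only [Matrix.mul_assoc]
      _ = D * (A * B) * D := by rw [hDD]; simp only [Matrix.mul_assoc, Matrix.one_mul]
      _ = 0 := by rw [h.2.2.1, Matrix.mul_zero, Matrix.zero_mul]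
  · rw [← Matrix.sub_mul, ← Matrix.mul_sub, h.2.2.2]

end

theorem pos_thm : S_POS := by
  intro I _ _
  refine ⟨posP, ?_, ?_, ?_, ?_, ?_⟩
  · intro X hX
    obtain ⟨B, hB⟩ := dec_posP hX
    refine ⟨hB.1, ?_⟩
    have h1 : posP X - X = B := by
      have h2 : posP X = X + B := sub_eq_iff_eq_add.1 hB.2.2.2
      exact sub_eq_iff_eq_add.2 (h2.trans (add_comm _ _))
    rw [h1]
    exact hB.2.1
  · intro X hX
    obtain ⟨B, hB⟩ := dec_posP hX
    refine ⟨LinearMap.range (posP X).mulVecLin, rfl, ?_⟩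
    rintro _ ⟨u, rfl⟩ hv
    rw [Matrix.mulVecLin_apply] at hv ⊢
    rw [hB.herm]
    have h1 : B.mulVec ((posP X).mulVec u) = 0 := by
      rw [Matrix.mulVec_mulVec, hB.comm, Matrix.zero_mulVec]
    have h2 : herm B ((posP X).mulVec u) ((posP X).mulVec u) = 0 := by
      rw [herm, h1, dotProduct_zero]
    rw [h2, sub_zero]
    apply herm_pos hB.1
    intro h3
    apply hv
    rw [← hB.1.dotProduct_mulVec_zero_iff]
    rw [Matrix.mulVec_mulVec] at h3
    have h4 : star ((posP X).mulVec u) ⬝ᵥ ((posP X).mulVec u) = 0 := by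
      rw [Matrix.star_mulVec, hB.1.isHermitian.eq, ← Matrix.dotProduct_mulVec,
        Matrix.mulVec_mulVec, h3, dotProduct_zero]
    rw [dotProduct_star_self_eq_zero] at h4
    rw [h4, dotProduct_zero]
  · intro X F hX hF
    obtain ⟨B, hB⟩ := dec_posP hX
    have hinj : Function.Injective ((posP X).mulVecLin.domRestrict F) := by
      rw [← LinearMap.ker_eq_bot, LinearMap.ker_eq_bot']
      rintro ⟨v, hv⟩ h0
      have h1 : (posP X).mulVec v = 0 := h0
      by_contra hne
      have hv0 : v ≠ 0 := fun h => hne (Subtype.ext h)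
      have h2 := hF v hv hv0
      rw [hB.herm] at h2
      have h3 : herm (posP X) v v = 0 := by rw [herm, h1, dotProduct_zero]
      rw [h3, zero_sub, Complex.neg_re] at h2
      have h4 := (Complex.le_def.1 (herm_nonneg hB.2.1 v)).1
      rw [Complex.zero_re] at h4
      linarith
    rw [← LinearMap.finrank_range_of_inj hinj]
    refine Submodule.finrank_mono ?_
    rintro _ ⟨⟨v, hv⟩, rfl⟩
    exact ⟨v, rfl⟩
  · intro X Y hX hY
    obtain ⟨B, hB⟩ := dec_posP hX
    obtain ⟨B', hB'⟩ := dec_posP hY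
    exact dec_le hB hB'
  · intro X s hX hs
    obtain ⟨B, hB⟩ := dec_posP hX
    rw [sign_eq, sign_eq]
    exact posP_eq (hB.sign s hs)

end Pool.Agent.Y155.RK
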