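import Pool.Agent.Y269.RK.Stm

/-!
# Sets covered by countably many locally Lipschitz images
-/

set_option autoImplicit false

namespace Pool.Agent.Y155.RK

open Pool.Agent.Helper133.BT Pool.Agent.Helper133.BU Pool.Agent.Y269.RK Module Set Topology
open scoped NNReal ENNReal

/-- composition of locally Lipschitz functions on sets -/
theorem llo_comp {α β γ : Type*} [PseudoEMetricSpace α] [PseudoEMetricSpace β]
    [PseudoEMetricSpace γ] {s : Set α} {t : Set β} {f : α → β} {g : β → γ}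
    (hg : LocallyLipschitzOn t g) (hf : LocallyLipschitzOn s f) (h : MapsTo f s t) :
    LocallyLipschitzOn s (g ∘ f) := by
  intro x hx
  obtain ⟨K, u, hu, hK⟩ := hf hx
  obtain ⟨K', u', hu', hK'⟩ := hg (h hx)
  have hc : ContinuousWithinAt f s x := hf.continuousOn x hx
  have h1 : f ⁻¹' u' ∈ 𝓝[s] x := (hc.tendsto_nhdsWithin h) hu'
  refine ⟨K' * K, u ∩ f ⁻¹' u', Filter.inter_mem hu h1, ?_⟩
  exact hK'.comp (hK.mono inter_subset_left) fun y hy => hy.2

theorem llo_prodMk {α β γ : Type*} [PseudoEMetricSpace α] [PseudoEMetricSpace β]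
    [PseudoEMetricSpace γ] {s : Set α} {f : α → β} {g : α → γ}
    (hf : LocallyLipschitzOn s f) (hg : LocallyLipschitzOn s g) :
    LocallyLipschitzOn s (fun x => (f x, g x)) := by
  intro x hx
  obtain ⟨K, u, hu, hK⟩ := hf hx
  obtain ⟨K', u', hu', hK'⟩ := hg hx
  exact ⟨max K K', u ∩ u', Filter.inter_mem hu hu',
    (hK.mono inter_subset_left).prodMk (hK'.mono inter_subset_right)⟩

/-- more convenient criterion -/
theorem par_of {d : ℕ} {E : Type} [NormedAddCommGroup E] {S : Set E} {ι : Type*} [Countable ι]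
    {V : Type*} [NormedAddCommGroup V] [NormedSpace ℝ V] [FiniteDimensional ℝ V]
    (hd : finrank ℝ V ≤ d) (f : ι → V → E) (s : ι → Set V)
    (hf : ∀ i, LocallyLipschitzOn (s i) (f i)) (hS : S ⊆ ⋃ i, f i '' s i) : Par d S := by
  classical
  let e : V ≃L[ℝ] (Fin (finrank ℝ V) → ℝ) :=
    ContinuousLinearEquiv.ofFinrankEq (by rw [Module.finrank_fin_fun])
  let p : (Fin d → ℝ) →ₗ[ℝ] (Fin (finrank ℝ V) → ℝ) := LinearMap.funLeft ℝ ℝ (Fin.castLE hd)
  have hp : Function.Surjective p :=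
    LinearMap.funLeft_surjective_of_injective ℝ ℝ _ (Fin.castLE_injective hd)
  let L : (Fin d → ℝ) →L[ℝ] V := (e.symm : _ →L[ℝ] V).comp (LinearMap.toContinuousLinearMap p)
  have hL : Function.Surjective L := by
    intro v
    obtain ⟨x, hx⟩ := hp (e v)
    exact ⟨x, by simp [L, hx]⟩
  rcases isEmpty_or_nonempty ι with hι | hι
  · refine ⟨fun _ _ => 0, fun _ => ∅, fun i => by simp, ?_⟩
    intro x hx
    have := hS hx
    simp at this
  · obtain ⟨a, ha⟩ := exists_surjective_nat ι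
    refine ⟨fun n => f (a n) ∘ L, fun n => L ⁻¹' s (a n), fun n => ?_, ?_⟩
    · exact llo_comp (hf (a n)) (L.lipschitz.locallyLipschitz.locallyLipschitzOn)
        fun x hx => hx
    · intro x hx
      obtain ⟨i, v, hv, rfl⟩ := mem_iUnion.1 (hS hx)
      obtain ⟨n, rfl⟩ := ha i
      obtain ⟨y, rfl⟩ := hL v
      exact mem_iUnion.2 ⟨n, y, hv, rfl⟩

theorem par_mono : S_PAR_MONO := by
  rintro d d' E _ S T hdd hST ⟨f, s, hf, hT⟩
  exact par_of (V := Fin d → ℝ) (by rwa [Module.finrank_fin_fun]) f s hf (hST.trans hT)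

theorem par_iUnion {d : ℕ} {E : Type} [NormedAddCommGroup E] {ι : Type*} [Countable ι]
    (S : ι → Set E) (h : ∀ i, Par d (S i)) : Par d (⋃ i, S i) := by
  choose f s hf hS using h
  refine par_of (V := Fin d → ℝ) (by rw [Module.finrank_fin_fun])
    (fun p : ι × ℕ => f p.1 p.2) (fun p => s p.1 p.2) (fun p => hf p.1 p.2) ?_
  intro x hx
  obtain ⟨i, hi⟩ := mem_iUnion.1 hx
  obtain ⟨n, hn⟩ := mem_iUnion.1 (hS i hi)
  exact mem_iUnion.2 ⟨(i, n), hn⟩

theorem par_union : S_PAR_UNION := fun _ _ _ S h => par_iUnion S h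

theorem par_image : S_PAR_IMAGE := by
  rintro d E F _ _ S g ⟨f, s, hf, hS⟩ hg
  refine ⟨fun i => g ∘ f i, fun i => s i ∩ f i ⁻¹' S, fun i => ?_, ?_⟩
  · exact llo_comp hg ((hf i).mono inter_subset_left) fun x hx => hx.2
  · rintro _ ⟨x, hx, rfl⟩
    obtain ⟨i, y, hy, rfl⟩ := mem_iUnion.1 (hS hx)
    exact mem_iUnion.2 ⟨i, y, ⟨hy, hx⟩, rfl⟩

theorem par_prod : S_PAR_PROD := by
  rintro d E F _ _ _ _ S ⟨f, s, hf, hS⟩
  refine par_of (V := (Fin d → ℝ) × F) (by rw [Module.finrank_prod, Module.finrank_fin_fun])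
    (fun i p => (f i p.1, p.2)) (fun i => s i ×ˢ univ) (fun i => ?_) ?_
  · refine llo_prodMk (llo_comp (hf i) ?_ fun x hx => hx.1) ?_
    · exact LipschitzWith.prod_fst.locallyLipschitz.locallyLipschitzOn
    · exact LipschitzWith.prod_snd.locallyLipschitz.locallyLipschitzOn
  · rintro ⟨x, w⟩ ⟨hx, -⟩
    obtain ⟨i, y, hy, rfl⟩ := mem_iUnion.1 (hS hx)
    exact mem_iUnion.2 ⟨i, (y, w), ⟨hy, mem_univ _⟩, rfl⟩

theorem par_dense : S_PAR_DENSE := by
  rintro d E _ _ _ S ⟨f, s, hf, hS⟩ hd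
  apply dense_compl_of_dimH_lt_finrank
  refine lt_of_le_of_lt (dimH_mono hS) ?_
  rw [dimH_iUnion]
  refine lt_of_le_of_lt (iSup_le fun i => ?_) (by exact_mod_cast hd : (d : ℝ≥0∞) < finrank ℝ E)
  refine (dimH_image_le_of_locally_lipschitzOn fun x hx => hf i hx).trans ?_
  exact (dimH_mono (subset_univ _)).trans_eq (Real.dimH_univ_pi_fin d)

/-- the two halves of the surface of the cross polytope -/
noncomputable def half {n : ℕ} (b : Bool) (u : Fin n → ℝ) : Fin (n + 1) → ℝ :=
  Fin.snoc (α := fun _ => ℝ) u ((if b then 1 else -1) * (1 - ∑ i, |u i|))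

theorem half_lip {n : ℕ} (b : Bool) (u u' : Fin n → ℝ) :
    dist (half b u) (half b u') ≤ (n + 1) * dist u u' := by
  rw [dist_pi_le_iff (by positivity)]
  intro j
  have hc : ∀ i, |u i - u' i| ≤ dist u u' := fun i => dist_le_pi_dist u u' i
  refine Fin.lastCases ?_ (fun i => ?_) j
  · simp only [half, Fin.snoc_last]
    have h1 : abs ((∑ i, |u i|) - ∑ i, |u' i|) ≤ n * dist u u' := by
      rw [← Finset.sum_sub_distrib]
      refine (Finset.abs_sum_le_sum_abs _ _).trans ?_
      refine (Finset.sum_le_card_nsmul _ _ (dist u u') fun i _ => ?_).trans ?_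
      · exact (abs_abs_sub_abs_le_abs_sub _ _).trans (hc i)
      · simp
    have h2 : dist ((if b = true then (1 : ℝ) else -1) * (1 - ∑ i, |u i|))
        ((if b = true then 1 else -1) * (1 - ∑ i, |u' i|)) = abs ((∑ i, |u i|) - ∑ i, |u' i|) := by
      rw [Real.dist_eq, ← mul_sub, abs_mul]
      have h3 : |(if b = true then (1 : ℝ) else -1)| = 1 := by split_ifs <;> simp
      rw [h3, one_mul, ← abs_neg]
      congr 1
      ring
    rw [h2]
    have h4 : 0 ≤ dist u u' := dist_nonneg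
    linarith
  · simp only [half, Fin.snoc_castSucc]
    have h4 : 0 ≤ dist u u' := dist_nonneg
    have h5 : dist (u i) (u' i) ≤ dist u u' := dist_le_pi_dist u u' i
    have h6 : 0 ≤ (n : ℝ) * dist u u' := by positivity
    linarith

theorem exists_half {n : ℕ} {y : Fin (n + 1) → ℝ} (hy : y ∈ K n) :
    ∃ (b : Bool) (u : Fin n → ℝ), y = half b u := by
  have h1 : ∑ i : Fin n, |y i.castSucc| + |y (Fin.last n)| = 1 := by
    have := hy
    simp only [K, mem_ofPred_eq] at this
    rwa [Fin.sum_univ_castSucc] at this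
  refine ⟨decide (0 ≤ y (Fin.last n)), fun i => y i.castSucc, ?_⟩
  funext j
  refine Fin.lastCases ?_ (fun i => ?_) j
  · simp only [half, Fin.snoc_last]
    by_cases h : 0 ≤ y (Fin.last n)
    · rw [abs_of_nonneg h] at h1
      simp only [h, decide_true, if_true]
      linarith
    · rw [abs_of_neg (not_le.1 h)] at h1
      simp only [h, decide_false, Bool.false_eq_true, if_false]
      linarith
  · simp only [half, Fin.snoc_castSucc]

theorem par_sph : S_PAR_SPH := by
  intro m K0 n T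
  refine par_of (ι := Fin K0 → Bool) (V := (Fin m → ℝ) × (∀ k : Fin K0, (Fin (n k) → ℝ)))
    ?_ (fun ε p => (p.1, fun k => half (ε k) (p.2 k))) (fun _ => T ×ˢ univ) (fun ε => ?_) ?_
  · rw [Module.finrank_prod, Module.finrank_fin_fun, Module.finrank_pi_fintype]
    simp only [Module.finrank_fin_fun]
    exact le_refl _
  · refine LocallyLipschitz.locallyLipschitzOn (LipschitzWith.locallyLipschitz
      (K := (1 + ∑ k : Fin K0, (n k : ℝ≥0))) ?_)
    refine LipschitzWith.of_dist_le_mul fun p p' => ?_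
    have hK : (1 : ℝ) ≤ ((1 + ∑ k : Fin K0, (n k : ℝ≥0) : ℝ≥0) : ℝ) := by
      push_cast
      have : (0 : ℝ) ≤ ∑ k : Fin K0, (n k : ℝ) := by positivity
      linarith
    have hp1 : dist p.1 p'.1 ≤ dist p p' := by rw [Prod.dist_eq]; exact le_max_left _ _
    have hp2 : dist p.2 p'.2 ≤ dist p p' := by rw [Prod.dist_eq]; exact le_max_right _ _
    have hpp : 0 ≤ dist p p' := dist_nonneg
    rw [Prod.dist_eq]
    refine max_le ?_ ?_
    · exact hp1.trans (le_mul_of_one_le_left hpp hK)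
    · rw [dist_pi_le_iff (by positivity)]
      intro k
      refine (half_lip (ε k) (p.2 k) (p'.2 k)).trans ?_
      have h1 : dist (p.2 k) (p'.2 k) ≤ dist p p' := (dist_le_pi_dist _ _ k).trans hp2
      have h2 : ((n k : ℝ) + 1) ≤ ((1 + ∑ k : Fin K0, (n k : ℝ≥0) : ℝ≥0) : ℝ) := by
        push_cast
        have : (n k : ℝ) ≤ ∑ k : Fin K0, (n k : ℝ) :=
          Finset.single_le_sum (f := fun k : Fin K0 => (n k : ℝ)) (fun _ _ => by positivity)
            (Finset.mem_univ k)
        linarith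
      exact mul_le_mul h2 h1 dist_nonneg (by positivity)
  · rintro ⟨t, y⟩ ⟨ht, hy⟩
    choose b u hbu using fun k : Fin K0 => exists_half (hy k)
    refine mem_iUnion.2 ⟨b, (t, u), ⟨ht, mem_univ _⟩, ?_⟩
    simp only [Prod.mk.injEq, true_and]
    funext k
    exact (hbu k).symm

end Pool.Agent.Y155.RK
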